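import Pool.Agent.K3h2.LT.Stm3

set_option autoImplicit false

/-! # Brick NEG3 of project LT3 of helper2 (helper18) -/

open Filter Topology

namespace Pool.Agent.K3h18.LT

open Pool.Agent.K3h2.LT

theorem t_NEG3 : S3_INQ → S3_NEG := by
  intro hinq L B x y h hL hx hy hxs hys hxy hyx hh heq
  have hB : 0 ≤ B := (abs_nonneg _).trans (hh 0)
  -- normalisation
  obtain ⟨l, hl, hlL⟩ : ∃ l : ℝ, 0 < l ∧ l ^ 2 = L :=
    ⟨Real.sqrt L, Real.sqrt_pos.2 hL, Real.sq_sqrt hL.le⟩
  obtain ⟨c, hc, hc4⟩ : ∃ c : ℝ, 0 < c ∧ 27 * c ^ 2 = 4 := by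
    refine ⟨Real.sqrt (4 / 27), Real.sqrt_pos.2 (by norm_num), ?_⟩
    rw [Real.sq_sqrt (by norm_num)]
    norm_num
  obtain ⟨u, hu⟩ : ∃ u : ℤ → ℝ, ∀ k, x k = l * u k :=
    ⟨fun k => x k / l, fun k => by field_simp⟩
  obtain ⟨v, hv⟩ : ∃ v : ℤ → ℝ, ∀ k, y k = l * v k :=
    ⟨fun k => y k / l, fun k => by field_simp⟩
  have hu0 : ∀ k, 0 < u k := fun k => by
    have := hx k
    rw [hu] at this
    exact (mul_pos_iff_of_pos_left hl).1 this
  have hv0 : ∀ k, 0 < v k := fun k => by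
    have := hy k
    rw [hv] at this
    exact (mul_pos_iff_of_pos_left hl).1 this
  have hl3 : l ^ 3 ≠ 0 := by positivity
  have hvu : ∀ k, v k = u (k - 1) ^ 3 + u k ^ 3 + u (k + 1) ^ 3 := by
    intro k
    have h1 := hxy k
    rw [hv, hu, hu, hu, ← hlL] at h1
    refine mul_left_cancel₀ hl3 ?_
    linear_combination h1
  have huv : ∀ k, u k = v (k - 1) ^ 3 + v k ^ 3 + v (k + 1) ^ 3 := by
    intro k
    have h1 := hyx k
    rw [hu, hv, hv, hv, ← hlL] at h1
    refine mul_left_cancel₀ hl3 ?_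
    linear_combination h1
  obtain ⟨G, hG⟩ : ∃ G : ℤ → ℝ, ∀ k, G k = u k ^ 2 + u k * v k + v k ^ 2 :=
    ⟨fun k => u k ^ 2 + u k * v k + v k ^ 2, fun k => rfl⟩
  have hG0 : ∀ k, 0 < G k := fun k => by
    rw [hG]
    have h1 := hu0 k
    have h2 := hv0 k
    positivity
  have heq' : ∀ k, h k = -(G (k - 1) * h (k - 1) + G k * h k + G (k + 1) * h (k + 1)) := by
    intro k
    have h1 := heq (fun k => L * G k) (fun k => by rw [hG, hu, hv, ← hlL]; ring) k
    refine mul_left_cancel₀ hL.ne' ?_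
    linear_combination h1
  obtain ⟨f, hf⟩ : ∃ f : ℤ → ℝ, ∀ k, f k = G k * h k := ⟨fun k => G k * h k, fun k => rfl⟩
  have hhf : ∀ k, h k = -(f (k - 1) + f k + f (k + 1)) := by
    intro k
    rw [hf, hf, hf]
    exact heq' k
  obtain ⟨φ, hφ⟩ : ∃ φ : ℤ → ℝ, ∀ k, φ k = (u k ^ 3 + v k ^ 3) / 2 + c :=
    ⟨fun k => (u k ^ 3 + v k ^ 3) / 2 + c, fun k => rfl⟩
  have hφc : ∀ k, c ≤ φ k := fun k => by
    rw [hφ]
    have h1 := hu0 k
    have h2 := hv0 k
    have : 0 ≤ (u k ^ 3 + v k ^ 3) / 2 := by positivity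
    linarith
  have hφ0 : ∀ k, 0 < φ k := fun k => hc.trans_le (hφc k)
  have hAφ : ∀ k, φ (k - 1) + φ k + φ (k + 1) = (u k + v k) / 2 + 3 * c := by
    intro k
    rw [hφ, hφ, hφ]
    linear_combination (-1 / 2 : ℝ) * hvu k + (-1 / 2 : ℝ) * huv k
  have hI : ∀ k, (φ (k - 1) + φ k + φ (k + 1)) * G k ≤ (2 * G k + 1) * φ k := by
    intro k
    have h1 := hinq (u k) (v k) c (hu0 k) (hv0 k) hc hc4
    rw [hAφ, hG, hφ]
    exact h1
  -- bounds
  have hus : Summable u := by
    have h1 : u = fun k => l⁻¹ * x k := by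
      funext k
      rw [hu]
      field_simp
    rw [h1]
    exact hxs.mul_left _
  have hvs : Summable v := by
    have h1 : v = fun k => l⁻¹ * y k := by
      funext k
      rw [hv]
      field_simp
    rw [h1]
    exact hys.mul_left _
  obtain ⟨U, hU0, hUu, hUv⟩ : ∃ U : ℝ, 0 < U ∧ (∀ k, u k ≤ U) ∧ ∀ k, v k ≤ U := by
    have h1 : ∀ k, u k ≤ ∑' k, u k := fun k => hus.le_tsum k fun j _ => (hu0 j).le
    have h2 : ∀ k, v k ≤ ∑' k, v k := fun k => hvs.le_tsum k fun j _ => (hv0 j).le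
    have h3 : 0 < ∑' k, u k := (hu0 0).trans_le (h1 0)
    have h4 : 0 < ∑' k, v k := (hv0 0).trans_le (h2 0)
    exact ⟨∑' k, u k + ∑' k, v k, by linarith, fun k => by linarith [h1 k],
      fun k => by linarith [h2 k]⟩
  have hφM : ∀ k, φ k ≤ U ^ 3 + c := by
    intro k
    rw [hφ]
    have h1 := pow_le_pow_left₀ (hu0 k).le (hUu k) 3
    have h2 := pow_le_pow_left₀ (hv0 k).le (hUv k) 3
    linarith
  have hGs : Summable G := by
    refine Summable.of_nonneg_of_le (fun k => (hG0 k).le) (fun k => ?_)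
      ((hus.add (hvs.mul_left 2)).mul_left U)
    rw [hG]
    have h1 := hu0 k
    have h2 := hv0 k
    nlinarith [mul_nonneg h1.le (sub_nonneg.2 (hUu k)), mul_nonneg h2.le (sub_nonneg.2 (hUu k)),
      mul_nonneg h2.le (sub_nonneg.2 (hUv k))]
  have hGM : ∀ k, G k ≤ 3 * U ^ 2 := by
    intro k
    rw [hG]
    have h1 := hu0 k
    have h2 := hv0 k
    nlinarith [mul_nonneg h1.le (sub_nonneg.2 (hUu k)), mul_nonneg h2.le (sub_nonneg.2 (hUu k)),
      mul_nonneg h2.le (sub_nonneg.2 (hUv k)), mul_nonneg hU0.le (sub_nonneg.2 (hUu k)),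
      mul_nonneg hU0.le (sub_nonneg.2 (hUv k))]
  have hfb : ∀ k, |f k| ≤ B * G k := by
    intro k
    rw [hf, abs_mul, abs_of_pos (hG0 k), mul_comm]
    exact mul_le_mul_of_nonneg_right (hh k) (hG0 k).le
  have hfb2 : ∀ k, |f k| ≤ B * (3 * U ^ 2) := fun k =>
    (hfb k).trans (mul_le_mul_of_nonneg_left (hGM k) hB)
  have hfs : Summable f := Summable.of_norm_bounded (hGs.mul_left B) fun k => by
    rw [Real.norm_eq_abs]
    exact hfb k
  have ha : Summable fun k => f k ^ 2 := by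
    refine Summable.of_nonneg_of_le (fun k => sq_nonneg _) (fun k => ?_)
      (hGs.mul_left (B * (3 * U ^ 2) * B))
    rw [← sq_abs, sq]
    calc |f k| * |f k| ≤ (B * (3 * U ^ 2)) * (B * G k) :=
          mul_le_mul (hfb2 k) (hfb k) (abs_nonneg _) (by positivity)
      _ = _ := by ring
  have hb : Summable fun k => f k * f (k + 1) := by
    refine Summable.of_norm_bounded (hGs.mul_left (B * (3 * U ^ 2) * B)) (fun k => ?_)
    rw [Real.norm_eq_abs, abs_mul]
    calc |f k| * |f (k + 1)| ≤ (B * G k) * (B * (3 * U ^ 2)) :=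
          mul_le_mul (hfb k) (hfb2 (k + 1)) (abs_nonneg _)
            (mul_nonneg hB (hG0 k).le)
      _ = _ := by ring
  obtain ⟨b, hb⟩ := hb
  have hb' : HasSum (fun k => f (k - 1) * f k) b := by
    have h1 := (Equiv.subRight (1 : ℤ)).hasSum_iff.2 hb
    have h2 : (fun k => f k * f (k + 1)) ∘ ⇑(Equiv.subRight (1 : ℤ)) =
        fun k => f (k - 1) * f k := by
      funext k
      show f (k - 1) * f (k - 1 + 1) = _
      rw [sub_add_cancel]
    rwa [h2] at h1
  have hrat : ∀ j k, φ j / φ k ≤ (U ^ 3 + c) / c := fun j k =>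
    div_le_div₀ (by positivity) (hφM j) hc (hφc k)
  have hA : Summable fun k => φ (k + 1) / φ k * f k ^ 2 := by
    refine Summable.of_nonneg_of_le (fun k => ?_) (fun k => ?_) (ha.mul_left ((U ^ 3 + c) / c))
    · have h1 := hφ0 (k + 1)
      have h2 := hφ0 k
      positivity
    · exact mul_le_mul_of_nonneg_right (hrat _ _) (sq_nonneg _)
  have hC : Summable fun k => φ (k - 1) / φ k * f k ^ 2 := by
    refine Summable.of_nonneg_of_le (fun k => ?_) (fun k => ?_) (ha.mul_left ((U ^ 3 + c) / c))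
    · have h1 := hφ0 (k - 1)
      have h2 := hφ0 k
      positivity
    · exact mul_le_mul_of_nonneg_right (hrat _ _) (sq_nonneg _)
  obtain ⟨SA, hA⟩ := hA
  obtain ⟨SC, hC⟩ := hC
  have hC' : HasSum (fun k => φ k / φ (k + 1) * f (k + 1) ^ 2) SC := by
    have h1 := (Equiv.addRight (1 : ℤ)).hasSum_iff.2 hC
    have h2 : (fun k => φ (k - 1) / φ k * f k ^ 2) ∘ ⇑(Equiv.addRight (1 : ℤ)) =
        fun k => φ k / φ (k + 1) * f (k + 1) ^ 2 := by
      funext k
      show φ (k + 1 - 1) / φ (k + 1) * f (k + 1) ^ 2 = _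
      rw [add_sub_cancel_right]
    rwa [h2] at h1
  -- the two forms of the sum
  have hW := (hA.add hC).add (hb.add hb')
  have hW0 : ∀ k, φ (k + 1) / φ k * f k ^ 2 + φ (k - 1) / φ k * f k ^ 2 +
      (f k * f (k + 1) + f (k - 1) * f k) ≤ 0 := by
    intro k
    have h1 := hφ0 k
    have h2 : φ (k + 1) / φ k * f k ^ 2 + φ (k - 1) / φ k * f k ^ 2 +
        (f k * f (k + 1) + f (k - 1) * f k) =
        (((φ (k - 1) + φ k + φ (k + 1)) * G k - (2 * G k + 1) * φ k) / φ k) * (G k * h k ^ 2) := by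
      have h3 : f (k + 1) + f (k - 1) = -h k - f k := by
        rw [hhf k]
        ring
      have h4 : f k * f (k + 1) + f (k - 1) * f k = f k * (-h k - f k) := by
        rw [← h3]
        ring
      rw [h4, hf k]
      field_simp
      ring
    rw [h2]
    have h5 : ((φ (k - 1) + φ k + φ (k + 1)) * G k - (2 * G k + 1) * φ k) / φ k ≤ 0 :=
      div_nonpos_of_nonpos_of_nonneg (by linarith [hI k]) h1.le
    have h6 : 0 ≤ G k * h k ^ 2 := mul_nonneg (hG0 k).le (sq_nonneg _)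
    exact mul_nonpos_of_nonpos_of_nonneg h5 h6
  have hle : SA + SC + (b + b) ≤ 0 := by
    have h1 := hW.neg
    have h2 : 0 ≤ -(SA + SC + (b + b)) := HasSum.nonneg (fun k => by
      have := hW0 k
      linarith) h1
    linarith
  have hT := (hA.add hC').add (hb.mul_left 2)
  have hTe : ∀ k, φ (k + 1) / φ k * f k ^ 2 + φ k / φ (k + 1) * f (k + 1) ^ 2 +
      2 * (f k * f (k + 1)) = (φ (k + 1) * f k + φ k * f (k + 1)) ^ 2 / (φ k * φ (k + 1)) := by
    intro k
    have h1 := hφ0 k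
    have h2 := hφ0 (k + 1)
    field_simp
    ring
  have hT0 : ∀ k, 0 ≤ φ (k + 1) / φ k * f k ^ 2 + φ k / φ (k + 1) * f (k + 1) ^ 2 +
      2 * (f k * f (k + 1)) := by
    intro k
    rw [hTe]
    have h1 := hφ0 k
    have h2 := hφ0 (k + 1)
    positivity
  have hzero : ∀ k, φ (k + 1) * f k + φ k * f (k + 1) = 0 := by
    intro k
    have h1 := le_hasSum hT k fun j _ => hT0 j
    have h2 : φ (k + 1) / φ k * f k ^ 2 + φ k / φ (k + 1) * f (k + 1) ^ 2 +
      2 * (f k * f (k + 1)) ≤ 0 := by linarith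
    rw [hTe] at h2
    have h3 : 0 < φ k * φ (k + 1) := mul_pos (hφ0 k) (hφ0 (k + 1))
    have h4 : (φ (k + 1) * f k + φ k * f (k + 1)) ^ 2 ≤ 0 := by
      have := (div_le_iff₀ h3).1 h2
      linarith
    exact pow_eq_zero_iff (two_ne_zero) |>.1 (le_antisymm h4 (sq_nonneg _))
  -- the ratio is constant up to sign
  have hconst : ∀ k, |f (k + 1)| / φ (k + 1) = |f k| / φ k := by
    intro k
    have h1 := hφ0 k
    have h2 := hφ0 (k + 1)
    rw [div_eq_div_iff h2.ne' h1.ne']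
    have h3 : φ k * f (k + 1) = -(φ (k + 1) * f k) := by linarith [hzero k]
    have h4 := congrArg abs h3
    rw [abs_neg, abs_mul, abs_mul, abs_of_pos h1, abs_of_pos h2] at h4
    linarith
  have hall : ∀ n : ℕ, |f (n : ℤ)| / φ n = |f 0| / φ 0 := by
    intro n
    induction n with
    | zero => rfl
    | succ n ih =>
      rw [← ih, ← hconst n]
      push_cast
      rfl
  have hlow : ∀ n : ℕ, c * (|f 0| / φ 0) ≤ |f (n : ℤ)| := by
    intro n
    rw [← hall n]
    have h1 := hφ0 (n : ℤ)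
    calc c * (|f (n : ℤ)| / φ n) ≤ φ n * (|f (n : ℤ)| / φ n) :=
          mul_le_mul_of_nonneg_right (hφc _) (by positivity)
      _ = |f (n : ℤ)| := by field_simp
  have hten : Tendsto (fun n : ℕ => |f (n : ℤ)|) atTop (𝓝 0) := by
    have h1 : Summable fun n : ℕ => f (n : ℤ) := hfs.comp_injective Nat.cast_injective
    have h2 := h1.tendsto_atTop_zero.abs
    rwa [abs_zero] at h2
  have hk0 : |f 0| / φ 0 = 0 := by
    have h1 : c * (|f 0| / φ 0) ≤ 0 := ge_of_tendsto' hten hlow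
    have h2 : 0 ≤ |f 0| / φ 0 := div_nonneg (abs_nonneg _) (hφ0 0).le
    nlinarith
  have hf0 : f 0 = 0 := by
    rcases (div_eq_zero_iff.1 hk0) with h1 | h1
    · exact abs_eq_zero.1 h1
    · exact absurd h1 (hφ0 0).ne'
  have hup : ∀ k, f k = 0 → f (k + 1) = 0 := by
    intro k hk
    have h1 := hzero k
    rw [hk, mul_zero, zero_add] at h1
    exact (mul_eq_zero.1 h1).resolve_left (hφ0 k).ne'
  have hdn : ∀ k, f (k + 1) = 0 → f k = 0 := by
    intro k hk
    have h1 := hzero k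
    rw [hk, mul_zero, add_zero] at h1
    exact (mul_eq_zero.1 h1).resolve_left (hφ0 (k + 1)).ne'
  have hfz : ∀ k, f k = 0 := by
    intro k
    induction k using Int.induction_on with
    | zero => exact hf0
    | succ n ih => exact hup _ ih
    | pred n ih => exact hdn _ (by rw [sub_add_cancel]; exact ih)
  intro k
  have h1 := hfz k
  rw [hf] at h1
  exact (mul_eq_zero.1 h1).resolve_left (hG0 k).ne'

end Pool.Agent.K3h18.LT
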